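import Pool.Agent.Helper11.PP.GoalsE

/-!
# Project PP (MP_fc6b1e_nt), packet D_NLS
-/

namespace Pool.Agent.Helper63.PP

open NumberField IsDedekindDomain Pool.Agent.Helper11.PP Pool.Agent.Helper42.PP

section

variable {p : ℕ} [hp : Fact p.Prime] {F : Type} [Field F] [NumberField F]

omit hp in
lemma val_p_lt (w : HeightOneSpectrum (𝓞 F)) (hw : (p : 𝓞 F) ∈ w.asIdeal) :
    w.valuation F (p : F) < 1 := by
  have h := (w.valuation_lt_one_iff_mem (K := F) (p : 𝓞 F)).2 hw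
  simpa using h

omit hp in
lemma val_p_eq (w : HeightOneSpectrum (𝓞 F)) (hw : (p : 𝓞 F) ∉ w.asIdeal) :
    w.valuation F (p : F) = 1 := by
  have h := (w.valuation_eq_one_iff_notMem (K := F) (r := (p : 𝓞 F))).2 hw
  simpa using h

omit hp in
/-- `p³ c` has valuation at most that of `p³`. -/
lemma val_le (w : HeightOneSpectrum (𝓞 F)) (c : 𝓞 F) :
    w.valuation F ((p : F) ^ 3 * (c : F)) ≤ w.valuation F (p : F) ^ 3 := by
  rw [map_mul, map_pow]
  exact mul_le_of_le_one_right' (w.valuation_le_one c)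

/-- The denominators of `x` form an ideal. -/
def den (x : F) : Ideal (𝓞 F) where
  carrier := {d | ∃ c : 𝓞 F, x * (d : F) = (c : F)}
  add_mem' := by
    rintro d e ⟨c, hc⟩ ⟨c', hc'⟩
    exact ⟨c + c', by push_cast; rw [mul_add, hc, hc']⟩
  zero_mem' := ⟨0, by simp⟩
  smul_mem' := by
    rintro r d ⟨c, hc⟩
    refine ⟨r * c, ?_⟩
    change x * algebraMap (𝓞 F) F d = algebraMap (𝓞 F) F c at hc
    change x * algebraMap (𝓞 F) F (r * d) = algebraMap (𝓞 F) F (r * c)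
    rw [map_mul, map_mul, ← hc]
    ring

lemma p_ne_zero : (p : 𝓞 F) ≠ 0 := Nat.cast_ne_zero.2 hp.out.ne_zero

/-- If `x` is integral at the primes above `p`, there is a denominator `≡ 1 mod p³`. -/
lemma exists_den (x : F) (hx : ∀ w : HeightOneSpectrum (𝓞 F), (p : 𝓞 F) ∈ w.asIdeal →
    w.valuation F x ≤ 1) :
    ∃ d c e : 𝓞 F, x * (d : F) = (c : F) ∧ d = 1 + (p : 𝓞 F) ^ 3 * e := by
  have htop : den x ⊔ Ideal.span {(p : 𝓞 F) ^ 3} = ⊤ := by
    by_contra h
    obtain ⟨M, hM, hle⟩ := Ideal.exists_le_maximal _ h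
    have hpM : (p : 𝓞 F) ∈ M := hM.isPrime.mem_of_pow_mem 3
      (hle (Ideal.mem_sup_right (Ideal.mem_span_singleton_self _)))
    have hM0 : M ≠ ⊥ := by
      rintro rfl
      exact p_ne_zero (p := p) (F := F) ((Submodule.mem_bot _).1 hpM)
    let w : HeightOneSpectrum (𝓞 F) := ⟨M, hM.isPrime, hM0⟩
    obtain ⟨n, d, hd⟩ := HeightOneSpectrum.exists_primeCompl_mul_eq_of_integer w x (hx w hpM)
    exact d.2 (hle (Ideal.mem_sup_left (show (d : 𝓞 F) ∈ den x from ⟨n, hd⟩)))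
  have h1 : (1 : 𝓞 F) ∈ den x ⊔ Ideal.span {(p : 𝓞 F) ^ 3} := by rw [htop]; trivial
  obtain ⟨d, ⟨c, hc⟩, z, hz, hdz⟩ := Submodule.mem_sup.1 h1
  obtain ⟨e, he⟩ := Ideal.mem_span_singleton'.1 hz
  refine ⟨d, c, -e, hc, ?_⟩
  linear_combination hdz + he

lemma not_isUnit_p : ¬ IsUnit (p : 𝓞 F) := by
  intro h
  have h1 := NumberField.isUnit_iff_norm.1 h
  have h2 : ((RingOfIntegers.norm ℚ (p : 𝓞 F) : 𝓞 ℚ) : ℚ) = (p : ℚ) ^ Module.finrank ℚ F := by
    rw [RingOfIntegers.coe_norm]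
    have h3 : (((p : 𝓞 F)) : F) = algebraMap ℚ F (p : ℚ) := by simp
    rw [h3, Algebra.norm_algebraMap]
  rw [h2, abs_of_nonneg (by positivity)] at h1
  have h4 : (1 : ℚ) < p := by exact_mod_cast hp.out.one_lt
  have h5 : (1 : ℚ) < (p : ℚ) ^ Module.finrank ℚ F :=
    one_lt_pow₀ h4 Module.finrank_pos.ne'
  exact absurd h1 h5.ne'

/-- Divisibility by `p³` from the valuations above `p`. -/
lemma dvd_of_val (b : 𝓞 F) (h : ∀ w : HeightOneSpectrum (𝓞 F), (p : 𝓞 F) ∈ w.asIdeal →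
    w.valuation F (b : F) ≤ w.valuation F (p : F) ^ 3) : (p : 𝓞 F) ^ 3 ∣ b := by
  have hpF : (p : F) ≠ 0 := Nat.cast_ne_zero.2 hp.out.ne_zero
  obtain ⟨c, hc⟩ := HeightOneSpectrum.mem_integers_of_valuation_le_one (R := 𝓞 F) F
    ((b : F) / (p : F) ^ 3) (fun w ↦ by
      rw [map_div₀, map_pow]
      have hv : w.valuation F (p : F) ≠ 0 := (Valuation.ne_zero_iff _).2 hpF
      by_cases hw : (p : 𝓞 F) ∈ w.asIdeal
      · exact div_le_one_of_le₀ (h w hw) zero_le
      · rw [val_p_eq w hw, one_pow, div_one]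
        exact w.valuation_le_one b)
  refine ⟨c, RingOfIntegers.ext ?_⟩
  rw [eq_div_iff (pow_ne_zero _ hpF)] at hc
  push_cast
  rw [← hc]
  ring

end

theorem d_nls : Pool.Agent.Helper11.PP.D_NLS := by
  intro p hp F _ _ a
  constructor
  · rintro ⟨b, y, ⟨c, hc⟩, hb⟩
    refine ⟨y, fun w hw ↦ ?_⟩
    have hw' : (p : 𝓞 F) ∈ w.asIdeal := hw
    rw [← hb]
    have h1 : (b : F) - 1 = (p : F) ^ 3 * (c : F) := by
      have := congrArg (algebraMap (𝓞 F) F) hc
      simpa using this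
    rw [h1]
    have h2 := val_le (p := p) w c
    exact ⟨lt_of_le_of_lt h2 (pow_lt_one₀ zero_le (val_p_lt w hw') three_ne_zero), h2⟩
  · rintro ⟨y, hy⟩
    have hy' : ∀ w : HeightOneSpectrum (𝓞 F), (p : 𝓞 F) ∈ w.asIdeal →
        w.valuation F ((a : F) * (y : F) ^ p) ≤ 1 := by
      intro w hw
      have h := (hy w hw).1
      have h2 : (a : F) * (y : F) ^ p = ((a : F) * (y : F) ^ p - 1) + 1 := by ring
      rw [h2]
      refine (Valuation.map_add _ _ _).trans (max_le h.le ?_)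
      rw [map_one]
    obtain ⟨d, c, e, hdc, hde⟩ := exists_den (p := p) _ hy'
    have hd0 : d ≠ 0 := by
      rintro rfl
      have h1 : IsUnit ((p : 𝓞 F) ^ 3) := by
        refine IsUnit.of_mul_eq_one (-e) ?_
        linear_combination hde
      exact not_isUnit_p ((isUnit_pow_iff three_ne_zero).1 h1)
    have hd0' : (d : F) ≠ 0 := RingOfIntegers.coe_ne_zero_iff.2 hd0
    have hp1 : p ≠ 0 := hp.out.ne_zero
    have hb : ((c * d ^ (p - 1) : 𝓞 F) : F) = (a : F) * ((y * Units.mk0 (d : F) hd0' : Fˣ) : F) ^ p := by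
      have h1 : ((c * d ^ (p - 1) : 𝓞 F) : F) = (c : F) * (d : F) ^ (p - 1) := by simp
      have h2 : (d : F) ^ p = (d : F) * (d : F) ^ (p - 1) := by
        rw [← pow_succ', Nat.sub_add_cancel hp.out.one_le]
      rw [h1, ← hdc, Units.val_mul, Units.val_mk0, mul_pow, h2]
      ring
    refine ⟨c * d ^ (p - 1), y * Units.mk0 (d : F) hd0', ?_, hb⟩
    refine dvd_of_val _ fun w hw ↦ ?_
    obtain ⟨f, hf⟩ : (p : 𝓞 F) ^ 3 ∣ d ^ p - 1 := by
      refine Dvd.dvd.trans ⟨e, ?_⟩ (sub_one_dvd_pow_sub_one d p)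
      rw [hde]
      ring
    have hf' : (d : F) ^ p - 1 = (p : F) ^ 3 * (f : F) := by
      have := congrArg (algebraMap (𝓞 F) F) hf
      simpa using this
    have h1 : ((c * d ^ (p - 1) - 1 : 𝓞 F) : F) =
        ((a : F) * (y : F) ^ p - 1) * (d : F) ^ p + (p : F) ^ 3 * (f : F) := by
      rw [← hf']
      have h2 : ((c * d ^ (p - 1) - 1 : 𝓞 F) : F) = ((c * d ^ (p - 1) : 𝓞 F) : F) - 1 := by
        push_cast
        ring
      rw [h2, hb]
      push_cast
      rw [Units.val_mk0]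
      ring
    rw [h1]
    refine (Valuation.map_add _ _ _).trans (max_le ?_ (val_le w f))
    rw [map_mul]
    refine (mul_le_of_le_one_right' ?_).trans (hy w hw).2
    rw [map_pow]
    exact pow_le_one' (w.valuation_le_one d) p

end Pool.Agent.Helper63.PP
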